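import Pool.Agent.TH462.T4.Union

set_option autoImplicit false
set_option linter.unusedSectionVars false

/-! # Change of the labels, single edges, monotonicity -/

namespace Pool.Agent.TH462.T4

open Finset

variable {V E : Type} [Fintype V] [DecidableEq V] [Fintype E] [DecidableEq E]

/-- the label `g i` of a list of digits -/
def lab (g : List ℕ) (i : Fin 5) : Fin 5 := ⟨g.getD i 0 % 5, Nat.mod_lt _ (by norm_num)⟩

/-- push a code along `g` -/
def pushc (g : List ℕ) (c : ℕ) : ℕ :=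
  ((c &&& 3) <<< (2 * (g.getD 0 0 % 5))) ^^^ (((c >>> 2) &&& 3) <<< (2 * (g.getD 1 0 % 5))) ^^^
  (((c >>> 4) &&& 3) <<< (2 * (g.getD 2 0 % 5))) ^^^
  (((c >>> 6) &&& 3) <<< (2 * (g.getD 3 0 % 5))) ^^^
  (((c >>> 8) &&& 3) <<< (2 * (g.getD 4 0 % 5)))

/-- pull a mask back along `g` -/
def pre (g : List ℕ) (j : ℕ) : ℕ :=
  ((j >>> (g.getD 0 0 % 5)) &&& 1) + 2 * ((j >>> (g.getD 1 0 % 5)) &&& 1) +
  4 * ((j >>> (g.getD 2 0 % 5)) &&& 1) + 8 * ((j >>> (g.getD 3 0 % 5)) &&& 1) +
  16 * ((j >>> (g.getD 4 0 % 5)) &&& 1)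

def k4 (d : ℕ) : K4 := (b2z (d.testBit 0), b2z (d.testBit 1))

theorem vec_sh : ∀ d < 4, ∀ m i : Fin 5, vec (d <<< (2 * (m : ℕ))) i = if i = m then k4 d else 0 := by
  decide

theorem and3_lt (x : ℕ) : x &&& 3 < 4 := by
  have : x &&& 3 ≤ 3 := Nat.and_le_right
  omega

theorem ext_sh (φ : Fin 5 → V) {d : ℕ} (hd : d < 4) (m : Fin 5) (w : V) :
    ext φ (vec (d <<< (2 * (m : ℕ)))) w = if φ m = w then k4 d else 0 := by
  unfold ext
  rw [sum_eq_single m]
  · rw [vec_sh d hd m m]; simp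
  · intro i _ hi
    rw [vec_sh d hd m i, if_neg hi]; simp
  · intro h; exact absurd (mem_univ m) h

theorem k4_dig (c : ℕ) (i : Fin 5) : k4 ((c >>> (2 * (i : ℕ))) &&& 3) = vec c i := by
  unfold k4 vec
  have h0 : ((c >>> (2 * (i : ℕ))) &&& 3).testBit 0 = c.testBit (2 * i) := by
    rw [Nat.testBit_and, Nat.testBit_shiftRight]
    have : Nat.testBit 3 0 = true := by decide
    rw [this]; simp
  have h1 : ((c >>> (2 * (i : ℕ))) &&& 3).testBit 1 = c.testBit (2 * i + 1) := by
    rw [Nat.testBit_and, Nat.testBit_shiftRight]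
    have : Nat.testBit 3 1 = true := by decide
    rw [this]; simp
  rw [h0, h1]

theorem ext_push (φ : Fin 5 → V) (g : List ℕ) (c : ℕ) (w : V) :
    ext φ (vec (pushc g c)) w = ext (φ ∘ lab g) (vec c) w := by
  unfold pushc
  rw [ext_xor, ext_xor, ext_xor, ext_xor]
  have h0 := ext_sh φ (and3_lt (c >>> (2 * ((0 : Fin 5) : ℕ)))) (lab g 0) w
  have h1 := ext_sh φ (and3_lt (c >>> (2 * ((1 : Fin 5) : ℕ)))) (lab g 1) w
  have h2 := ext_sh φ (and3_lt (c >>> (2 * ((2 : Fin 5) : ℕ)))) (lab g 2) w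
  have h3 := ext_sh φ (and3_lt (c >>> (2 * ((3 : Fin 5) : ℕ)))) (lab g 3) w
  have h4 := ext_sh φ (and3_lt (c >>> (2 * ((4 : Fin 5) : ℕ)))) (lab g 4) w
  rw [k4_dig] at h0 h1 h2 h3 h4
  have e0 : c >>> (2 * ((0 : Fin 5) : ℕ)) = c := by simp
  rw [e0] at h0
  have hh : ext (φ ∘ lab g) (vec c) w = (if φ (lab g 0) = w then vec c 0 else 0) +
      (if φ (lab g 1) = w then vec c 1 else 0) + (if φ (lab g 2) = w then vec c 2 else 0) +
      (if φ (lab g 3) = w then vec c 3 else 0) + (if φ (lab g 4) = w then vec c 4 else 0) := by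
    unfold ext
    rw [Fin.sum_univ_five]
    rfl
  rw [hh, ← h0, ← h1, ← h2, ← h3, ← h4]
  rfl

theorem pre_testBit (g : List ℕ) (j : ℕ) (i : Fin 5) :
    (pre g j).testBit i = j.testBit (lab g i) := by
  have key : ∀ b0 b1 b2 b3 b4 : Bool,
      (b0.toNat + 2 * b1.toNat + 4 * b2.toNat + 8 * b3.toNat + 16 * b4.toNat).testBit 0 = b0 ∧
      (b0.toNat + 2 * b1.toNat + 4 * b2.toNat + 8 * b3.toNat + 16 * b4.toNat).testBit 1 = b1 ∧
      (b0.toNat + 2 * b1.toNat + 4 * b2.toNat + 8 * b3.toNat + 16 * b4.toNat).testBit 2 = b2 ∧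
      (b0.toNat + 2 * b1.toNat + 4 * b2.toNat + 8 * b3.toNat + 16 * b4.toNat).testBit 3 = b3 ∧
      (b0.toNat + 2 * b1.toNat + 4 * b2.toNat + 8 * b3.toNat + 16 * b4.toNat).testBit 4 = b4 := by
    decide
  have hb : ∀ m : ℕ, (j >>> m) &&& 1 = (j.testBit m).toNat := by
    intro m
    rw [Nat.and_one_is_mod, Nat.toNat_testBit, Nat.shiftRight_eq_div_pow]
  obtain ⟨k0, k1, k2, k3, k4⟩ := key (j.testBit (g.getD 0 0 % 5)) (j.testBit (g.getD 1 0 % 5))
    (j.testBit (g.getD 2 0 % 5)) (j.testBit (g.getD 3 0 % 5)) (j.testBit (g.getD 4 0 % 5))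
  unfold pre
  rw [hb, hb, hb, hb, hb]
  fin_cases i
  · exact k0
  · exact k1
  · exact k2
  · exact k3
  · exact k4

theorem img_lab (φ : Fin 5 → V) (g : List ℕ) (j j' : ℕ)
    (h : ∀ i : Fin 5, j.testBit i = j'.testBit (lab g i)) (hs : Function.Surjective (lab g)) :
    img (φ ∘ lab g) j = img φ j' := by
  ext x
  rw [mem_img, mem_img]
  constructor
  · rintro ⟨i, hi, rfl⟩
    exact ⟨lab g i, by rw [← h]; exact hi, rfl⟩
  · rintro ⟨i, hi, rfl⟩
    obtain ⟨k, rfl⟩ := hs i
    exact ⟨k, by rw [h]; exact hi, rfl⟩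

section relabel

variable {src dst : E → V} {φ : Fin 5 → V} {a a' : ℕ} {F D C : Finset E} {I : Finset V}
  {g : List ℕ}

theorem img_pre (ha : ∀ i : Fin 5, a'.testBit (lab g i) = a.testBit i)
    (hs : Function.Surjective (lab g)) (j : ℕ) :
    img (φ ∘ lab g) (pre g j &&& a) = img φ (j &&& a') := by
  refine img_lab φ g _ _ (fun i => ?_) hs
  rw [Nat.testBit_and, Nat.testBit_and, pre_testBit, ha]

theorem pre_lt (g : List ℕ) (j : ℕ) : pre g j < 32 := by
  unfold pre
  have h : ∀ x : ℕ, x &&& 1 ≤ 1 := fun x => Nat.and_le_right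
  have h0 := h (j >>> (g.getD 0 0 % 5))
  have h1 := h (j >>> (g.getD 1 0 % 5))
  have h2 := h (j >>> (g.getD 2 0 % 5))
  have h3 := h (j >>> (g.getD 3 0 % 5))
  have h4 := h (j >>> (g.getD 4 0 % 5))
  omega

theorem Geo.relabel (hs : Function.Surjective (lab g))
    (ha : ∀ i : Fin 5, a'.testBit (lab g i) = a.testBit i)
    (h : Geo src dst (φ ∘ lab g) a F I) : Geo src dst φ a' F I where
  inj := by
    intro i j hi hj hij
    obtain ⟨i, rfl⟩ := hs i
    obtain ⟨j, rfl⟩ := hs j
    rw [h.inj i j (by rw [← ha]; exact hi) (by rw [← ha]; exact hj) hij]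
  ends := by
    rw [← img_lab φ g a a' (fun i => (ha i).symm) hs]; exact h.ends
  closed := h.closed
  disj := by rw [← img_lab φ g a a' (fun i => (ha i).symm) hs]; exact h.disj
  inc := by rw [← img_lab φ g a a' (fun i => (ha i).symm) hs]; exact h.inc

theorem SP.relabel {S : ℕ → Prop} {cu : ℕ → ℕ} (hs : Function.Surjective (lab g))
    (ha : ∀ i : Fin 5, a'.testBit (lab g i) = a.testBit i)
    (h : SP src dst (φ ∘ lab g) a S cu F I) :
    SP src dst φ a' (fun c => ∃ x, S x ∧ c = pushc g x) (fun j => cu (pre g j)) F I where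
  flow := by
    rintro c ⟨x, hx, rfl⟩
    obtain ⟨f, h1, h2⟩ := h.flow x hx
    exact ⟨f, h1, fun w => by rw [h2, ext_push]⟩
  cut := by
    intro j hj
    obtain ⟨Y, hY, h1⟩ := h.cut (pre g j) (pre_lt g j)
    exact ⟨Y, hY, by rw [img_pre ha hs] at h1; exact h1⟩

theorem SV.relabel {S : ℕ → Prop} {cl : ℕ → ℕ} (hs : Function.Surjective (lab g)) (ha5 : a < 32)
    (ha : ∀ i : Fin 5, a'.testBit (lab g i) = a.testBit i)
    (h : SV src dst (φ ∘ lab g) a S cl F I D C) :
    SV src dst φ a' (fun c => ∃ x, S x ∧ c = pushc g x) (fun j => cl (pre g j)) F I D C where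
  DF := h.DF
  CF := h.CF
  DC := h.DC
  up := by
    intro f h1 h2 h3
    obtain ⟨c, hc, h4⟩ := h.up f h1 h2 h3
    exact ⟨pushc g c, ⟨c, hc, rfl⟩, fun w => by rw [h4, ext_push]⟩
  cut := by
    intro j hj Y hY hd
    have := h.cut (pre g j) (pre_lt g j) Y hY (by rw [img_pre ha hs]; exact hd)
    rw [img_pre ha hs] at this
    exact this
  triv := by
    intro j hj ht Y hY hd
    have big : ∀ i : ℕ, ¬ i < 5 → ∀ x < 32, x.testBit i = false := by
      intro i hi x hx
      refine Nat.testBit_lt_two_pow (lt_of_lt_of_le hx ?_)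
      calc 32 = 2 ^ 5 := by norm_num
        _ ≤ 2 ^ i := Nat.pow_le_pow_right (by norm_num) (by omega)
    have := h.triv (pre g j) (pre_lt g j) (by
      rcases ht with ht | ht
      · left
        apply Nat.eq_of_testBit_eq
        intro i
        by_cases hi : i < 5
        · have := congrArg (fun z => z.testBit (lab g ⟨i, hi⟩)) ht
          simp only [Nat.testBit_and, Nat.zero_testBit, ha] at this
          have h2 := pre_testBit g j ⟨i, hi⟩
          simp only at h2
          rw [Nat.testBit_and, h2, Nat.zero_testBit]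
          exact this
        · rw [Nat.testBit_and, big i hi _ (pre_lt g j)]
          simp
      · right
        apply Nat.eq_of_testBit_eq
        intro i
        by_cases hi : i < 5
        · have := congrArg (fun z => z.testBit (lab g ⟨i, hi⟩)) ht
          simp only [Nat.testBit_and, ha] at this
          have h2 := pre_testBit g j ⟨i, hi⟩
          simp only at h2
          rw [Nat.testBit_and, h2]
          exact this
        · rw [Nat.testBit_and, big i hi _ (pre_lt g j), big i hi _ ha5]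
          simp) Y hY (by rw [img_pre ha hs]; exact hd)
    rw [img_pre ha hs] at this
    exact this

end relabel

section mono

variable {src dst : E → V} {φ ψ : Fin 5 → V} {a : ℕ} {F D C : Finset E} {I : Finset V}

theorem img_congr (h : ∀ i : Fin 5, a.testBit i = true → φ i = ψ i) (j : ℕ) :
    img φ (j &&& a) = img ψ (j &&& a) := by
  ext x
  rw [mem_img, mem_img]
  constructor
  · rintro ⟨i, hi, rfl⟩
    have h1 := hi
    rw [Nat.testBit_and, Bool.and_eq_true] at h1
    exact ⟨i, hi, (h i h1.2).symm⟩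
  · rintro ⟨i, hi, rfl⟩
    have h1 := hi
    rw [Nat.testBit_and, Bool.and_eq_true] at h1
    exact ⟨i, hi, h i h1.2⟩

theorem img_congr' (h : ∀ i : Fin 5, a.testBit i = true → φ i = ψ i) : img φ a = img ψ a := by
  have := img_congr h a
  rwa [Nat.and_self] at this

theorem Geo.congr (h : ∀ i : Fin 5, a.testBit i = true → φ i = ψ i) (hg : Geo src dst φ a F I) :
    Geo src dst ψ a F I where
  inj := by
    intro i j hi hj hij
    rw [← h i hi, ← h j hj] at hij
    exact hg.inj i j hi hj hij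
  ends := by rw [← img_congr' h]; exact hg.ends
  closed := hg.closed
  disj := by rw [← img_congr' h]; exact hg.disj
  inc := by rw [← img_congr' h]; exact hg.inc

theorem ext_congr (h : ∀ i : Fin 5, a.testBit i = true → φ i = ψ i) {c : ℕ}
    (hc : ∀ i : Fin 5, a.testBit i = false → vec c i = 0) (w : V) :
    ext φ (vec c) w = ext ψ (vec c) w := by
  unfold ext
  refine sum_congr rfl fun i _ => ?_
  by_cases hi : a.testBit i = true
  · rw [h i hi]
  · rw [hc i (by simpa using hi)]; simp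

theorem SP.congr {S : ℕ → Prop} {cu : ℕ → ℕ}
    (h : ∀ i : Fin 5, a.testBit i = true → φ i = ψ i)
    (hS : ∀ c, S c → ∀ i : Fin 5, a.testBit i = false → vec c i = 0)
    (hp : SP src dst φ a S cu F I) : SP src dst ψ a S cu F I where
  flow := by
    intro c hc
    obtain ⟨f, h1, h2⟩ := hp.flow c hc
    exact ⟨f, h1, fun w => by rw [h2, ext_congr h (hS c hc)]⟩
  cut := by
    intro j hj
    rw [← img_congr h]; exact hp.cut j hj

theorem SV.congr {S : ℕ → Prop} {cl : ℕ → ℕ}
    (h : ∀ i : Fin 5, a.testBit i = true → φ i = ψ i)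
    (hS : ∀ c, S c → ∀ i : Fin 5, a.testBit i = false → vec c i = 0)
    (hv : SV src dst φ a S cl F I D C) : SV src dst ψ a S cl F I D C where
  DF := hv.DF
  CF := hv.CF
  DC := hv.DC
  up := by
    intro f h1 h2 h3
    obtain ⟨c, hc, h4⟩ := hv.up f h1 h2 h3
    exact ⟨c, hc, fun w => by rw [h4, ext_congr h (hS c hc)]⟩
  cut := by
    intro j hj
    rw [← img_congr h]; exact hv.cut j hj
  triv := by
    intro j hj
    rw [← img_congr h]; exact hv.triv j hj

theorem SP.mono {S S' : ℕ → Prop} {cu cu' : ℕ → ℕ} (hp : SP src dst φ a S cu F I)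
    (hS : ∀ c, S' c → S c) (hc : ∀ j < 32, cu j ≤ cu' j) : SP src dst φ a S' cu' F I where
  flow := fun c h => hp.flow c (hS c h)
  cut := by
    intro j hj
    obtain ⟨Y, hY, h1⟩ := hp.cut j hj
    exact ⟨Y, hY, h1.trans (hc j hj)⟩

theorem SV.mono {S S' : ℕ → Prop} {cl cl' : ℕ → ℕ} (hv : SV src dst φ a S cl F I D C)
    (hS : ∀ c, S c → S' c) (hc : ∀ j < 32, cl' j ≤ cl j) : SV src dst φ a S' cl' F I D C where
  DF := hv.DF
  CF := hv.CF
  DC := hv.DC
  up := by
    intro f h1 h2 h3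
    obtain ⟨c, hc, h4⟩ := hv.up f h1 h2 h3
    exact ⟨c, hS c hc, h4⟩
  cut := fun j hj Y hY hd => (hc j hj).trans (hv.cut j hj Y hY hd)
  triv := hv.triv

end mono

section edge

variable {src dst : E → V} {φ : Fin 5 → V} {e : E}

theorem k4_inv : ∀ x : K4, ∃ d < 4, k4 d = x := by
  decide

theorem vec5 : ∀ d < 4, ∀ i : Fin 5, vec (5 * d) i = if i = 0 ∨ i = 1 then k4 d else 0 := by
  decide

theorem ext5 {d : ℕ} (hd : d < 4) (w : V) :
    ext φ (vec (5 * d)) w = (if φ 0 = w then k4 d else 0) + (if φ 1 = w then k4 d else 0) := by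
  unfold ext
  rw [Fin.sum_univ_five, vec5 d hd 0, vec5 d hd 1, vec5 d hd 2, vec5 d hd 3, vec5 d hd 4]
  simp

theorem bd_one {f : E → K4} (hf : ∀ e', e' ≠ e → f e' = 0) (w : V) :
    bd src dst f w = (if src e = w then f e else 0) + (if dst e = w then f e else 0) := by
  have : f = Pi.single e (f e) := by
    funext e'
    by_cases h : e' = e
    · subst h; simp
    · rw [hf e' h, Pi.single_eq_of_ne h]
  rw [this, bd_single]
  simp

theorem img3 (φ : Fin 5 → V) : img φ 3 = {φ 0, φ 1} := by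
  ext x
  rw [mem_img, mem_insert, mem_singleton]
  constructor
  · rintro ⟨i, hi, rfl⟩
    have : ∀ i : Fin 5, (3 : ℕ).testBit i = true → i = 0 ∨ i = 1 := by decide
    rcases this i hi with rfl | rfl
    · exact Or.inl rfl
    · exact Or.inr rfl
  · rintro (rfl | rfl)
    · exact ⟨0, by decide, rfl⟩
    · exact ⟨1, by decide, rfl⟩

theorem Geo.edge (h : src e ≠ dst e) (h0 : φ 0 = src e) (h1 : φ 1 = dst e) :
    Geo src dst φ 3 {e} ∅ where
  inj := by
    have key : ∀ i : Fin 5, (3 : ℕ).testBit i = true → i = 0 ∨ i = 1 := by decide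
    intro i j hi hj hij
    rcases key i hi with rfl | rfl <;> rcases key j hj with rfl | rfl
    · rfl
    · rw [h0, h1] at hij; exact absurd hij h
    · rw [h0, h1] at hij; exact absurd hij.symm h
    · rfl
  ends := by
    intro e' he
    rw [mem_singleton.1 he, img3, h0, h1]
    exact ⟨h, by simp, by simp⟩
  closed := by intro x hx; exact absurd hx (notMem_empty x)
  disj := by simp
  inc := by
    intro x hx
    rw [img3, h0, h1] at hx
    refine ⟨e, mem_singleton_self e, ?_⟩
    simp only [empty_union, mem_insert, mem_singleton] at hx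
    rcases hx with h | h
    · exact Or.inl h.symm
    · exact Or.inr h.symm

theorem and3_cases : ∀ j < 32, j &&& 3 = 0 ∨ j &&& 3 = 3 ∨ j &&& 3 = 1 ∨ j &&& 3 = 2 := by decide

theorem edge_crs (h : src e ≠ dst e) (h0 : φ 0 = src e) (h1 : φ 1 = dst e) {j : ℕ} (hj : j < 32) :
    crs src dst (img φ (j &&& 3) ∪ ∅) ∩ {e} =
      if j &&& 3 = 0 ∨ j &&& 3 = 3 then ∅ else {e} := by
  have hm : ∀ m : ℕ, e ∈ crs src dst (img φ m ∪ ∅) ↔
      ¬ (φ 0 ∈ img φ m ↔ φ 1 ∈ img φ m) := by
    intro m; rw [mem_crs, h0, h1, union_empty]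
  have ne : φ 0 ≠ φ 1 := by rw [h0, h1]; exact h
  have i0 : img φ 0 = ∅ := img_zero φ
  have i1 : img φ 1 = {φ 0} := by
    ext x
    rw [mem_img, mem_singleton]
    constructor
    · rintro ⟨i, hi, rfl⟩
      have : ∀ i : Fin 5, (1 : ℕ).testBit i = true → i = 0 := by decide
      rw [this i hi]
    · rintro rfl; exact ⟨0, by decide, rfl⟩
  have i2 : img φ 2 = {φ 1} := by
    ext x
    rw [mem_img, mem_singleton]
    constructor
    · rintro ⟨i, hi, rfl⟩
      have : ∀ i : Fin 5, (2 : ℕ).testBit i = true → i = 1 := by decide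
      rw [this i hi]
    · rintro rfl; exact ⟨1, by decide, rfl⟩
  rcases and3_cases j hj with h2 | h2 | h2 | h2
  · rw [if_pos (Or.inl h2), h2, ← disjoint_iff_inter_eq_empty, disjoint_singleton_right, hm, i0]
    simp
  · rw [if_pos (Or.inr h2), h2, ← disjoint_iff_inter_eq_empty, disjoint_singleton_right, hm, img3]
    simp
  · rw [if_neg (by rw [h2]; decide), h2]
    rw [inter_eq_right, singleton_subset_iff, hm, i1]
    simp [ne.symm]
  · rw [if_neg (by rw [h2]; decide), h2]
    rw [inter_eq_right, singleton_subset_iff, hm, i2]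
    simp [ne]

theorem SP.edge (h : src e ≠ dst e) (h0 : φ 0 = src e) (h1 : φ 1 = dst e) :
    SP src dst φ 3 (fun c => c = 5 ∨ c = 10 ∨ c = 15)
      (fun j => if j &&& 3 = 0 ∨ j &&& 3 = 3 then 0 else 1) {e} ∅ where
  flow := by
    intro c hc
    have : ∃ d < 4, d ≠ 0 ∧ c = 5 * d := by
      rcases hc with rfl | rfl | rfl
      · exact ⟨1, by norm_num, by norm_num, rfl⟩
      · exact ⟨2, by norm_num, by norm_num, rfl⟩
      · exact ⟨3, by norm_num, by norm_num, rfl⟩
    obtain ⟨d, hd, hd0, rfl⟩ := this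
    have hk : k4 d ≠ 0 := by
      have : ∀ d < 4, d ≠ 0 → k4 d ≠ 0 := by decide
      exact this d hd hd0
    refine ⟨Pi.single e (k4 d), fun e' => ?_, fun w => ?_⟩
    · rw [mem_singleton]
      by_cases h' : e' = e
      · subst h'; simp [hk]
      · rw [Pi.single_eq_of_ne h']; simp [h']
    · rw [bd_single, ext5 hd, h0, h1]
  cut := by
    intro j hj
    refine ⟨∅, subset_rfl, ?_⟩
    rw [edge_crs h h0 h1 hj]
    split_ifs <;> simp

theorem SV.edge_id (h : src e ≠ dst e) (h0 : φ 0 = src e) (h1 : φ 1 = dst e) :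
    SV src dst φ 3 (fun c => c = 5 ∨ c = 10 ∨ c = 15)
      (fun j => if j &&& 3 = 0 ∨ j &&& 3 = 3 then 0 else 1) {e} ∅ ∅ ∅ where
  DF := empty_subset _
  CF := empty_subset _
  DC := disjoint_empty_left _
  up := by
    intro f hf hz _
    have hz' := hz e (mem_singleton_self e) (notMem_empty e) (notMem_empty e)
    obtain ⟨d, hd, hk⟩ := k4_inv (f e)
    have hc : 5 * d = 5 ∨ 5 * d = 10 ∨ 5 * d = 15 := by
      have : d ≠ 0 := by
        rintro rfl
        exact hz' (by rw [← hk]; decide)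
      omega
    refine ⟨5 * d, hc, fun w => ?_⟩
    rw [ext5 hd, h0, h1, hk]
    exact bd_one (fun e' he' => by
      by_contra hne
      exact he' (mem_singleton.1 (hf e' hne).1)) w
  cut := by
    intro j hj Y hY _
    rw [subset_empty] at hY
    subst hY
    rw [edge_crs h h0 h1 hj]
    split_ifs <;> simp
  triv := by
    intro j hj ht Y hY _
    rw [subset_empty] at hY
    subst hY
    rw [edge_crs h h0 h1 hj, if_pos ht]
    simp

theorem SV.edge_del (h : src e ≠ dst e) (h0 : φ 0 = src e) (h1 : φ 1 = dst e) :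
    SV src dst φ 3 (fun c => c = 0) (fun _ => 0) {e} ∅ {e} ∅ where
  DF := subset_rfl
  CF := empty_subset _
  DC := disjoint_empty_right _
  up := by
    intro f hf _ _
    refine ⟨0, rfl, fun w => ?_⟩
    rw [ext_zero]
    have : f = 0 := by
      funext e'
      by_contra hne
      exact (hf e' hne).2 (hf e' hne).1
    rw [this]; unfold bd; simp
  cut := by
    intro j hj Y hY _
    exact Nat.zero_le _
  triv := by
    intro j hj ht Y hY _
    rw [subset_empty] at hY
    subst hY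
    rw [edge_crs h h0 h1 hj, if_pos ht]
    simp

theorem SV.edge_con (h : src e ≠ dst e) (h0 : φ 0 = src e) (h1 : φ 1 = dst e) :
    SV src dst φ 3 (fun c => c = 0 ∨ c = 5 ∨ c = 10 ∨ c = 15)
      (fun j => if j &&& 3 = 0 ∨ j &&& 3 = 3 then 0 else 3) {e} ∅ ∅ {e} where
  DF := empty_subset _
  CF := subset_rfl
  DC := disjoint_empty_left _
  up := by
    intro f hf _ _
    obtain ⟨d, hd, hk⟩ := k4_inv (f e)
    have hc : 5 * d = 0 ∨ 5 * d = 5 ∨ 5 * d = 10 ∨ 5 * d = 15 := by omega
    refine ⟨5 * d, hc, fun w => ?_⟩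
    rw [ext5 hd, h0, h1, hk]
    exact bd_one (fun e' he' => by
      by_contra hne
      exact he' (mem_singleton.1 (hf e' hne).1)) w
  cut := by
    intro j hj Y hY hd
    rw [subset_empty] at hY
    subst hY
    rw [edge_crs h h0 h1 hj] at hd ⊢
    split_ifs with ht
    · simp
    · rw [if_neg ht] at hd; simp at hd
  triv := by
    intro j hj ht Y hY _
    rw [subset_empty] at hY
    subst hY
    rw [edge_crs h h0 h1 hj, if_pos ht]
    simp

end edge

end Pool.Agent.TH462.T4
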