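import Pool.Agent.TH676.T4.Cut

set_option autoImplicit false
set_option linter.unusedSectionVars false

/-! # Parts of a graph, semantics: definitions -/

namespace Pool.Agent.TH462.T4

open Finset

variable {V E : Type} [Fintype V] [DecidableEq V] [Fintype E] [DecidableEq E]

/-- a Boolean as an element of `ZMod 2` -/
def b2z (b : Bool) : ZMod 2 := if b then 1 else 0

/-- the vector coded by `c` (two bits for each label) -/
def vec (c : ℕ) (i : Fin 5) : K4 := (b2z (c.testBit (2 * i)), b2z (c.testBit (2 * i + 1)))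

/-- a vector on the labels as a function on the vertices -/
def ext (φ : Fin 5 → V) (σ : Fin 5 → K4) (w : V) : K4 := ∑ i, if φ i = w then σ i else 0

/-- the vertices of the labels in the mask `j` -/
def img (φ : Fin 5 → V) (j : ℕ) : Finset V :=
  (univ.filter (fun i : Fin 5 => j.testBit i = true)).image φ

/-- a part `(F, I)` of the graph, attached to the labels in the mask `a` -/
structure Geo (src dst : E → V) (φ : Fin 5 → V) (a : ℕ) (F : Finset E) (I : Finset V) : Prop where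
  inj : ∀ i j : Fin 5, a.testBit i = true → a.testBit j = true → φ i = φ j → i = j
  ends : ∀ e ∈ F, src e ≠ dst e ∧ src e ∈ I ∪ img φ a ∧ dst e ∈ I ∪ img φ a
  closed : ∀ x ∈ I, ∀ e, src e ≠ dst e → (src e = x ∨ dst e = x) → e ∈ F
  disj : Disjoint I (img φ a)
  inc : ∀ x ∈ I ∪ img φ a, ∃ e ∈ F, src e = x ∨ dst e = x

/-- lower bound `S` for the boundaries of nowhere-zero flows, upper bound `cu` for the cuts -/
structure SP (src dst : E → V) (φ : Fin 5 → V) (a : ℕ) (S : ℕ → Prop) (cu : ℕ → ℕ)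
    (F : Finset E) (I : Finset V) : Prop where
  flow : ∀ c, S c → ∃ f : E → K4, (∀ e, f e ≠ 0 ↔ e ∈ F) ∧
    ∀ w, bd src dst f w = ext φ (vec c) w
  cut : ∀ j < 32, ∃ Y ⊆ I, (crs src dst (img φ (j &&& a) ∪ Y) ∩ F).card ≤ cu j

/-- a variant (delete `D`, contract `C`): upper bound `S` for the boundaries, lower bound `cl`
for the cuts -/
structure SV (src dst : E → V) (φ : Fin 5 → V) (a : ℕ) (S : ℕ → Prop) (cl : ℕ → ℕ)
    (F : Finset E) (I : Finset V) (D C : Finset E) : Prop where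
  DF : D ⊆ F
  CF : C ⊆ F
  DC : Disjoint D C
  up : ∀ f : E → K4, (∀ e, f e ≠ 0 → e ∈ F ∧ e ∉ D) → (∀ e ∈ F, e ∉ D → e ∉ C → f e ≠ 0) →
    (∀ w ∈ I, bd src dst f w = 0) → ∃ c, S c ∧ ∀ w, bd src dst f w = ext φ (vec c) w
  cut : ∀ j < 32, ∀ Y ⊆ I, Disjoint (crs src dst (img φ (j &&& a) ∪ Y) ∩ F) C →
    cl j ≤ ((crs src dst (img φ (j &&& a) ∪ Y) ∩ F) \ D).card
  triv : ∀ j < 32, (j &&& a = 0 ∨ j &&& a = a) → ∀ Y ⊆ I,
    Disjoint (crs src dst (img φ (j &&& a) ∪ Y) ∩ F) C →
    ((crs src dst (img φ (j &&& a) ∪ Y) ∩ F) \ D).card ≠ 1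

/-- at least two bits of a mask on five labels -/
def two (x : ℕ) : Bool := x &&& (x - 1) != 0

/-- lower bound for the cuts of a minimal counterexample -/
def base (a j : ℕ) : ℕ := if two (a &&& j) && two (a &&& (31 ^^^ j)) then 4 else 3

theorem two_spec : ∀ x < 32, two x = true →
    ∃ i k : Fin 5, i ≠ k ∧ x.testBit i = true ∧ x.testBit k = true := by decide

theorem one_spec : ∀ x < 32, x ≠ 0 → ∃ i : Fin 5, x.testBit i = true := by decide

end Pool.Agent.TH462.T4
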