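import Pool.Agent.TH462.T4.Sem

set_option autoImplicit false
set_option linter.unusedSectionVars false

/-! # Union of two parts, change of the labels, single edges -/

namespace Pool.Agent.TH462.T4

open Finset

variable {V E : Type} [Fintype V] [DecidableEq V] [Fintype E] [DecidableEq E]

theorem b2z_xor (a b : Bool) : b2z (a ^^ b) = b2z a + b2z b := by
  cases a <;> cases b <;> decide

theorem vec_xor (a b : ℕ) (i : Fin 5) : vec (a ^^^ b) i = vec a i + vec b i := by
  unfold vec
  rw [Nat.testBit_xor, Nat.testBit_xor, b2z_xor, b2z_xor]; rfl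

theorem vec_zero (i : Fin 5) : vec 0 i = 0 := by
  unfold vec b2z
  simp

theorem ext_xor (φ : Fin 5 → V) (a b : ℕ) (w : V) :
    ext φ (vec (a ^^^ b)) w = ext φ (vec a) w + ext φ (vec b) w := by
  unfold ext
  rw [← sum_add_distrib]
  refine sum_congr rfl fun i _ => ?_
  by_cases h : φ i = w
  · rw [if_pos h, if_pos h, if_pos h, vec_xor]
  · simp [h]

theorem ext_zero (φ : Fin 5 → V) (w : V) : ext φ (vec 0) w = 0 := by
  unfold ext
  refine sum_eq_zero fun i _ => ?_
  rw [vec_zero]; simp

theorem mem_img {φ : Fin 5 → V} {j : ℕ} {x : V} :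
    x ∈ img φ j ↔ ∃ i : Fin 5, j.testBit i = true ∧ φ i = x := by
  unfold img
  simp

theorem img_zero (φ : Fin 5 → V) : img φ 0 = ∅ := by
  ext x
  rw [mem_img]
  simp

theorem img_or (φ : Fin 5 → V) (a b : ℕ) : img φ (a ||| b) = img φ a ∪ img φ b := by
  ext x
  rw [mem_union, mem_img, mem_img, mem_img]
  constructor
  · rintro ⟨i, hi, rfl⟩
    rw [Nat.testBit_or, Bool.or_eq_true] at hi
    rcases hi with h | h
    · exact Or.inl ⟨i, h, rfl⟩
    · exact Or.inr ⟨i, h, rfl⟩
  · rintro (⟨i, hi, rfl⟩ | ⟨i, hi, rfl⟩)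
    · exact ⟨i, by rw [Nat.testBit_or, hi]; rfl, rfl⟩
    · exact ⟨i, by rw [Nat.testBit_or, hi]; simp, rfl⟩

/-- cuts only depend on the ends of the edges -/
theorem crs_inter_congr {src dst : E → V} {F : Finset E} {W W' : Finset V}
    (h : ∀ e ∈ F, (src e ∈ W ↔ src e ∈ W') ∧ (dst e ∈ W ↔ dst e ∈ W')) :
    crs src dst W ∩ F = crs src dst W' ∩ F := by
  ext e
  rw [mem_inter, mem_inter, mem_crs, mem_crs]
  constructor
  · rintro ⟨h1, h2⟩
    exact ⟨by rw [← (h e h2).1, ← (h e h2).2]; exact h1, h2⟩
  · rintro ⟨h1, h2⟩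
    exact ⟨by rw [(h e h2).1, (h e h2).2]; exact h1, h2⟩

theorem Geo.agree {src dst : E → V} {φ : Fin 5 → V} {a : ℕ} {F : Finset E} {I : Finset V}
    (h : Geo src dst φ a F I) {W W' : Finset V} (hW : ∀ x ∈ I ∪ img φ a, (x ∈ W ↔ x ∈ W')) :
    crs src dst W ∩ F = crs src dst W' ∩ F :=
  crs_inter_congr fun e he => ⟨hW _ (h.ends e he).2.1, hW _ (h.ends e he).2.2⟩

/-- two parts side by side -/
structure Sep (φ : Fin 5 → V) (a1 a2 : ℕ) (F1 F2 : Finset E) (I1 I2 : Finset V) : Prop where
  inj : ∀ i j : Fin 5, (a1 ||| a2).testBit i = true → (a1 ||| a2).testBit j = true →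
    φ i = φ j → i = j
  F : Disjoint F1 F2
  I : Disjoint I1 I2
  d1 : Disjoint I1 (img φ a2)
  d2 : Disjoint I2 (img φ a1)

theorem Sep.symm {φ : Fin 5 → V} {a1 a2 : ℕ} {F1 F2 : Finset E} {I1 I2 : Finset V}
    (h : Sep φ a1 a2 F1 F2 I1 I2) : Sep φ a2 a1 F2 F1 I2 I1 where
  inj := by
    have := h.inj
    rwa [Nat.lor_comm] at this
  F := h.F.symm
  I := h.I.symm
  d1 := h.d2
  d2 := h.d1

section union

variable {src dst : E → V} {φ : Fin 5 → V} {a1 a2 : ℕ} {F1 F2 : Finset E} {I1 I2 : Finset V}

theorem Geo.union (h1 : Geo src dst φ a1 F1 I1) (h2 : Geo src dst φ a2 F2 I2)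
    (hs : Sep φ a1 a2 F1 F2 I1 I2) : Geo src dst φ (a1 ||| a2) (F1 ∪ F2) (I1 ∪ I2) where
  inj := hs.inj
  ends := by
    intro e he
    rw [img_or]
    rcases mem_union.1 he with he | he
    · obtain ⟨h, h3, h4⟩ := h1.ends e he
      refine ⟨h, ?_, ?_⟩
      · simp only [mem_union] at h3 ⊢; tauto
      · simp only [mem_union] at h4 ⊢; tauto
    · obtain ⟨h, h3, h4⟩ := h2.ends e he
      refine ⟨h, ?_, ?_⟩
      · simp only [mem_union] at h3 ⊢; tauto
      · simp only [mem_union] at h4 ⊢; tauto
  closed := by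
    intro x hx e he hex
    rcases mem_union.1 hx with hx | hx
    · exact mem_union_left _ (h1.closed x hx e he hex)
    · exact mem_union_right _ (h2.closed x hx e he hex)
  disj := by
    rw [img_or, disjoint_union_left, disjoint_union_right, disjoint_union_right]
    exact ⟨⟨h1.disj, hs.d1⟩, hs.d2, h2.disj⟩
  inc := by
    intro x hx
    rw [img_or] at hx
    have : x ∈ I1 ∪ img φ a1 ∨ x ∈ I2 ∪ img φ a2 := by
      simp only [mem_union] at hx ⊢; tauto
    rcases this with h | h
    · obtain ⟨e, he, h⟩ := h1.inc x h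
      exact ⟨e, mem_union_left _ he, h⟩
    · obtain ⟨e, he, h⟩ := h2.inc x h
      exact ⟨e, mem_union_right _ he, h⟩

/-- the cut of the first part -/
theorem cut_left (hs : Sep φ a1 a2 F1 F2 I1 I2) (h1 : Geo src dst φ a1 F1 I1) (j : ℕ)
    (Y : Finset V) (hY : Y ⊆ I1 ∪ I2) :
    crs src dst (img φ (j &&& (a1 ||| a2)) ∪ Y) ∩ F1 =
      crs src dst (img φ (j &&& a1) ∪ (Y ∩ I1)) ∩ F1 := by
  refine h1.agree fun x hx => ?_
  have hor : ∀ i : Fin 5, a1.testBit i = true → (a1 ||| a2).testBit i = true := by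
    intro i hi; rw [Nat.testBit_or, hi]; rfl
  rcases mem_union.1 hx with hx | hx
  · -- interior
    have n1 : x ∉ img φ (j &&& (a1 ||| a2)) := by
      intro hc
      obtain ⟨i, hi, rfl⟩ := mem_img.1 hc
      rw [Nat.testBit_and, Bool.and_eq_true, Nat.testBit_or, Bool.or_eq_true] at hi
      rcases hi.2 with h | h
      · exact disjoint_left.1 h1.disj hx (mem_img.2 ⟨i, h, rfl⟩)
      · exact disjoint_left.1 hs.d1 hx (mem_img.2 ⟨i, h, rfl⟩)
    have n2 : x ∉ img φ (j &&& a1) := by
      intro hc
      obtain ⟨i, hi, rfl⟩ := mem_img.1 hc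
      rw [Nat.testBit_and, Bool.and_eq_true] at hi
      exact disjoint_left.1 h1.disj hx (mem_img.2 ⟨i, hi.2, rfl⟩)
    simp only [mem_union, mem_inter, n1, n2, hx, false_or, and_true]
  · obtain ⟨i, hi, rfl⟩ := mem_img.1 hx
    have n1 : φ i ∉ Y := by
      intro hc
      rcases mem_union.1 (hY hc) with h | h
      · exact disjoint_left.1 h1.disj h hx
      · exact disjoint_left.1 hs.d2 h hx
    have n2 : φ i ∈ img φ (j &&& (a1 ||| a2)) ↔ φ i ∈ img φ (j &&& a1) := by
      rw [mem_img, mem_img]
      constructor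
      · rintro ⟨k, hk, hki⟩
        rw [Nat.testBit_and, Bool.and_eq_true] at hk
        have : k = i := hs.inj k i hk.2 (hor i hi) hki
        subst this
        exact ⟨k, by rw [Nat.testBit_and, hk.1, hi]; rfl, rfl⟩
      · rintro ⟨k, hk, hki⟩
        rw [Nat.testBit_and, Bool.and_eq_true] at hk
        exact ⟨k, by rw [Nat.testBit_and, hk.1, hor k hk.2]; rfl, hki⟩
    simp only [mem_union, mem_inter, n1, n2, false_and, or_false]

theorem cut_right (hs : Sep φ a1 a2 F1 F2 I1 I2) (h2 : Geo src dst φ a2 F2 I2) (j : ℕ)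
    (Y : Finset V) (hY : Y ⊆ I1 ∪ I2) :
    crs src dst (img φ (j &&& (a1 ||| a2)) ∪ Y) ∩ F2 =
      crs src dst (img φ (j &&& a2) ∪ (Y ∩ I2)) ∩ F2 := by
  have := cut_left (src := src) (dst := dst) hs.symm h2 j Y (by rwa [union_comm])
  rwa [Nat.lor_comm] at this

theorem SP.union {S1 S2 : ℕ → Prop} {c1 c2 : ℕ → ℕ} (g1 : Geo src dst φ a1 F1 I1)
    (g2 : Geo src dst φ a2 F2 I2) (hs : Sep φ a1 a2 F1 F2 I1 I2)
    (h1 : SP src dst φ a1 S1 c1 F1 I1) (h2 : SP src dst φ a2 S2 c2 F2 I2) :
    SP src dst φ (a1 ||| a2) (fun c => ∃ x y, S1 x ∧ S2 y ∧ c = x ^^^ y)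
      (fun j => c1 j + c2 j) (F1 ∪ F2) (I1 ∪ I2) where
  flow := by
    rintro c ⟨x, y, hx, hy, rfl⟩
    obtain ⟨f1, z1, b1⟩ := h1.flow x hx
    obtain ⟨f2, z2, b2⟩ := h2.flow y hy
    refine ⟨f1 + f2, fun e => ?_, fun w => ?_⟩
    · rw [mem_union, ← z1, ← z2, Pi.add_apply]
      by_cases e1 : f1 e = 0
      · simp [e1]
      · have : f2 e = 0 := by
          by_contra e2
          exact disjoint_left.1 hs.F ((z1 e).1 e1) ((z2 e).1 e2)
        simp [this]
    · rw [bd_add, b1, b2, ext_xor]
  cut := by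
    intro j hj
    obtain ⟨Y1, hY1, k1⟩ := h1.cut j hj
    obtain ⟨Y2, hY2, k2⟩ := h2.cut j hj
    have hY : Y1 ∪ Y2 ⊆ I1 ∪ I2 := union_subset_union hY1 hY2
    refine ⟨Y1 ∪ Y2, hY, ?_⟩
    rw [inter_union_distrib_left, cut_left hs g1 j _ hY, cut_right hs g2 j _ hY]
    have e1 : (Y1 ∪ Y2) ∩ I1 = Y1 := by
      ext x
      simp only [mem_inter, mem_union]
      constructor
      · rintro ⟨h | h, h'⟩
        · exact h
        · exact absurd h' (fun h'' => disjoint_left.1 hs.I h'' (hY2 h))
      · exact fun h => ⟨Or.inl h, hY1 h⟩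
    have e2 : (Y1 ∪ Y2) ∩ I2 = Y2 := by
      ext x
      simp only [mem_inter, mem_union]
      constructor
      · rintro ⟨h | h, h'⟩
        · exact absurd (hY1 h) (fun h'' => disjoint_left.1 hs.I h'' h')
        · exact h
      · exact fun h => ⟨Or.inr h, hY2 h⟩
    rw [e1, e2]
    exact (card_union_le _ _).trans (Nat.add_le_add k1 k2)

theorem split_card (hF : Disjoint F1 F2) {D1 D2 : Finset E} (hD1 : D1 ⊆ F1) (hD2 : D2 ⊆ F2)
    (W : Finset V) :
    ((crs src dst W ∩ (F1 ∪ F2)) \ (D1 ∪ D2)).card =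
      ((crs src dst W ∩ F1) \ D1).card + ((crs src dst W ∩ F2) \ D2).card := by
  rw [← card_union_of_disjoint]
  · congr 1
    ext e
    have h1 : e ∈ D1 → e ∈ F1 := fun h => hD1 h
    have h2 : e ∈ D2 → e ∈ F2 := fun h => hD2 h
    have h3 : e ∈ F1 → e ∉ F2 := fun h => disjoint_left.1 hF h
    simp only [mem_sdiff, mem_inter, mem_union]
    tauto
  · rw [disjoint_left]
    intro e h1 h2
    simp only [mem_sdiff, mem_inter] at h1 h2
    exact disjoint_left.1 hF h1.1.2 h2.1.2

theorem SV.union {S1 S2 : ℕ → Prop} {c1 c2 : ℕ → ℕ} {D1 C1 D2 C2 : Finset E}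
    (g1 : Geo src dst φ a1 F1 I1) (g2 : Geo src dst φ a2 F2 I2)
    (hs : Sep φ a1 a2 F1 F2 I1 I2)
    (h1 : SV src dst φ a1 S1 c1 F1 I1 D1 C1) (h2 : SV src dst φ a2 S2 c2 F2 I2 D2 C2) :
    SV src dst φ (a1 ||| a2) (fun c => ∃ x y, S1 x ∧ S2 y ∧ c = x ^^^ y)
      (fun j => c1 j + c2 j) (F1 ∪ F2) (I1 ∪ I2) (D1 ∪ D2) (C1 ∪ C2) where
  DF := union_subset_union h1.DF h2.DF
  CF := union_subset_union h1.CF h2.CF
  DC := by
    rw [disjoint_union_left, disjoint_union_right, disjoint_union_right]
    exact ⟨⟨h1.DC, (disjoint_of_subset_left h1.DF (disjoint_of_subset_right h2.CF hs.F))⟩,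
      (disjoint_of_subset_left h2.DF (disjoint_of_subset_right h1.CF hs.F.symm)), h2.DC⟩
  up := by
    intro f hf hz hI
    set f1 : E → K4 := fun e => if e ∈ F1 then f e else 0 with hf1
    set f2 : E → K4 := fun e => if e ∈ F2 then f e else 0 with hf2
    have hsum : f = f1 + f2 := by
      funext e
      rw [Pi.add_apply]
      by_cases e1 : e ∈ F1
      · have e2 : e ∉ F2 := disjoint_left.1 hs.F e1
        simp [hf1, hf2, e1, e2]
      · by_cases e2 : e ∈ F2
        · simp [hf1, hf2, e1, e2]
        · have : f e = 0 := by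
            by_contra h
            rcases mem_union.1 (hf e h).1 with h | h
            · exact e1 h
            · exact e2 h
          simp [hf1, hf2, e1, e2, this]
    have hb : ∀ w, bd src dst f w = bd src dst f1 w + bd src dst f2 w := by
      intro w; rw [← bd_add, ← hsum]
    have z2 : ∀ w ∈ I1, bd src dst f2 w = 0 := by
      intro w hw
      have : bd src dst f2 w = bd src dst (fun _ => (0 : K4)) w := by
        unfold bd
        refine sum_congr rfl fun e _ => ?_
        by_cases e2 : e ∈ F2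
        · have hne := (g2.ends e e2).1
          have n1 : ¬ src e = w := fun h =>
            disjoint_left.1 hs.F (g1.closed w hw e hne (Or.inl h)) e2
          have n2 : ¬ dst e = w := fun h =>
            disjoint_left.1 hs.F (g1.closed w hw e hne (Or.inr h)) e2
          simp [n1, n2]
        · simp [hf2, e2]
      rw [this]; unfold bd; simp
    have z1 : ∀ w ∈ I2, bd src dst f1 w = 0 := by
      intro w hw
      have : bd src dst f1 w = bd src dst (fun _ => (0 : K4)) w := by
        unfold bd
        refine sum_congr rfl fun e _ => ?_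
        by_cases e2 : e ∈ F1
        · have hne := (g1.ends e e2).1
          have n1 : ¬ src e = w := fun h =>
            disjoint_left.1 hs.F e2 (g2.closed w hw e hne (Or.inl h))
          have n2 : ¬ dst e = w := fun h =>
            disjoint_left.1 hs.F e2 (g2.closed w hw e hne (Or.inr h))
          simp [n1, n2]
        · simp [hf1, e2]
      rw [this]; unfold bd; simp
    obtain ⟨x, hx, bx⟩ := h1.up f1 (by
      intro e he
      by_cases e1 : e ∈ F1
      · simp only [hf1, e1, if_true] at he
        exact ⟨e1, fun h => (hf e he).2 (mem_union_left _ h)⟩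
      · simp [hf1, e1] at he) (by
      intro e e1 hD hC
      simp only [hf1, e1, if_true]
      refine hz e (mem_union_left _ e1) ?_ ?_
      · intro h
        rcases mem_union.1 h with h | h
        · exact hD h
        · exact disjoint_left.1 hs.F e1 (h2.DF h)
      · intro h
        rcases mem_union.1 h with h | h
        · exact hC h
        · exact disjoint_left.1 hs.F e1 (h2.CF h)) (by
      intro w hw
      have := hb w
      rw [hI w (mem_union_left _ hw), z2 w hw, add_zero] at this
      exact this.symm)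
    obtain ⟨y, hy, by'⟩ := h2.up f2 (by
      intro e he
      by_cases e1 : e ∈ F2
      · simp only [hf2, e1, if_true] at he
        exact ⟨e1, fun h => (hf e he).2 (mem_union_right _ h)⟩
      · simp [hf2, e1] at he) (by
      intro e e1 hD hC
      simp only [hf2, e1, if_true]
      refine hz e (mem_union_right _ e1) ?_ ?_
      · intro h
        rcases mem_union.1 h with h | h
        · exact disjoint_left.1 hs.F (h1.DF h) e1
        · exact hD h
      · intro h
        rcases mem_union.1 h with h | h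
        · exact disjoint_left.1 hs.F (h1.CF h) e1
        · exact hC h) (by
      intro w hw
      have := hb w
      rw [hI w (mem_union_right _ hw), z1 w hw, zero_add] at this
      exact this.symm)
    exact ⟨x ^^^ y, ⟨x, y, hx, hy, rfl⟩, fun w => by rw [hb, bx, by', ext_xor]⟩
  cut := by
    intro j hj Y hY hd
    rw [inter_union_distrib_left, disjoint_union_left, disjoint_union_right,
      disjoint_union_right] at hd
    rw [split_card hs.F h1.DF h2.DF, cut_left hs g1 j Y hY, cut_right hs g2 j Y hY]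
    refine Nat.add_le_add (h1.cut j hj _ inter_subset_right ?_)
      (h2.cut j hj _ inter_subset_right ?_)
    · rw [← cut_left hs g1 j Y hY]; exact hd.1.1
    · rw [← cut_right hs g2 j Y hY]; exact hd.2.2
  triv := by
    intro j hj ht Y hY hd
    rw [inter_union_distrib_left, disjoint_union_left, disjoint_union_right,
      disjoint_union_right] at hd
    rw [split_card hs.F h1.DF h2.DF, cut_left hs g1 j Y hY, cut_right hs g2 j Y hY]
    have t1 : j &&& a1 = 0 ∨ j &&& a1 = a1 := by
      rcases ht with h | h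
      · left
        apply Nat.eq_of_testBit_eq
        intro i
        have := congrArg (fun z => z.testBit i) h
        simp only [Nat.testBit_and, Nat.testBit_or, Nat.zero_testBit] at this ⊢
        revert this
        cases j.testBit i <;> cases a1.testBit i <;> simp
      · right
        apply Nat.eq_of_testBit_eq
        intro i
        have := congrArg (fun z => z.testBit i) h
        simp only [Nat.testBit_and, Nat.testBit_or] at this ⊢
        revert this
        cases j.testBit i <;> cases a1.testBit i <;> simp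
    have t2 : j &&& a2 = 0 ∨ j &&& a2 = a2 := by
      rcases ht with h | h
      · left
        apply Nat.eq_of_testBit_eq
        intro i
        have := congrArg (fun z => z.testBit i) h
        simp only [Nat.testBit_and, Nat.testBit_or, Nat.zero_testBit] at this ⊢
        revert this
        cases j.testBit i <;> cases a1.testBit i <;> cases a2.testBit i <;> simp
      · right
        apply Nat.eq_of_testBit_eq
        intro i
        have := congrArg (fun z => z.testBit i) h
        simp only [Nat.testBit_and, Nat.testBit_or] at this ⊢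
        revert this
        cases j.testBit i <;> cases a1.testBit i <;> cases a2.testBit i <;> simp
    have r1 := h1.triv j hj t1 (Y ∩ I1) inter_subset_right
      (by rw [← cut_left hs g1 j Y hY]; exact hd.1.1)
    have r2 := h2.triv j hj t2 (Y ∩ I2) inter_subset_right
      (by rw [← cut_right hs g2 j Y hY]; exact hd.2.2)
    omega

end union

end Pool.Agent.TH462.T4
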